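import Mathlib
import Pool.Agent.Lib.MP_9cfc0a_nt.SF.H5
import Pool.Agent.Lib.MP_9cfc0a_nt.SF.H6
import Pool.Agent.Lib.MP_9cfc0a_nt.SF.H7
import Pool.Agent.Lib.MP_9cfc0a_nt.SG.H5
import Pool.Agent.Lib.MP_9cfc0a_nt.SG.H6

set_option autoImplicit false

namespace Pool.Agent.Results.MP_9cfc0a_nt.EveryScale

open MeasureTheory

/-- `ψ(x; q, a)`: the sum of `Λ(n)` over `1 ≤ n ≤ x` with `n ≡ a (mod q)`. -/
noncomputable def psi (x : ℝ) (q a : ℕ) : ℝ :=
  ∑ n ∈ (Finset.Icc 1 ⌊x⌋₊).filter (fun n => n % q = a % q), ArithmeticFunction.vonMangoldt n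

/-- `V(x; q)`: the sum of `(ψ(x; q, a) - x / φ(q))²` over the reduced residues `1 ≤ a ≤ q`. -/
noncomputable def V (x : ℝ) (q : ℕ) : ℝ :=
  ∑ a ∈ (Finset.Icc 1 q).filter (fun a => Nat.Coprime a q),
    (psi x q a - x / (Nat.totient q : ℝ)) ^ 2

/-- `V_g(x; q)`: half the sum of `(ψ(x; q, a) - ψ(x; q, ga))²` over the reduced residues `1 ≤ a ≤ q`. -/
noncomputable def Vr (x : ℝ) (q g : ℕ) : ℝ :=
  1 / 2 * ∑ a ∈ (Finset.Icc 1 q).filter (fun a => Nat.Coprime a q), (psi x q a - psi x q (g * a)) ^ 2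

/-- `ψ(x, χ)`: the sum of `χ(n) Λ(n)` over `1 ≤ n ≤ x`. -/
noncomputable def psiChar {q : ℕ} (χ : DirichletCharacter ℂ q) (x : ℝ) : ℂ :=
  ∑ n ∈ Finset.Icc 1 ⌊x⌋₊, χ n * ((ArithmeticFunction.vonMangoldt n : ℝ) : ℂ)

/-- `Q = (q log X)^K`: the window is the set `W` of the `x ≥ 1` in `[X/Q, XQ]`. -/
noncomputable def Q (q K : ℕ) (X : ℝ) : ℝ := (q * Real.log X) ^ K

/-- `M[F]`: the mean of `F(x)/(x log q)` over the window `W` with respect to `dx/x`: the integral of `F(x)/(x log q) dx/x` over `W`, divided by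
the logarithmic length of `W`. Hooley's prediction `x log q` has the mean `1`. -/
noncomputable def mean (q K : ℕ) (X : ℝ) (F : ℝ → ℝ) : ℝ :=
  (∫ x in (max 1 (X / Q q K X))..(X * Q q K X), F x / (x * Real.log q) / x) /
    (Real.log (X * Q q K X) - Real.log (max 1 (X / Q q K X)))

/-- `x` is in the window `W`. -/
def inW (q K : ℕ) (X x : ℝ) : Prop := 1 ≤ x ∧ X / Q q K X ≤ x ∧ x ≤ X * Q q K X

/-- `D_A[F]`: the mean excess of `F` over Hooley's prediction `x log q` on `[q, q^A]`, with the weight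
`2 (1 - log x/log q^A)/(log q^A log q) dx/x²` (`D_A[F] = 0` for `A = 1`). -/
noncomputable def excess (q : ℕ) (A : ℝ) (F : ℝ → ℝ) : ℝ :=
  2 / (A * Real.log q ^ 2) * ∫ x in (q : ℝ)..((q : ℝ) ^ A),
    (1 - Real.log x / (A * Real.log q)) * (F x - x * Real.log q) / x ^ 2

/-- The excess of the library. -/
theorem excess_eq (q : ℕ) (hq : 3 ≤ q) (A : ℝ) (hA : 1 ≤ A) (F : ℝ → ℝ) : excess q A F = Pool.Agent.SG.exc q A F := by
  have h3 : (3 : ℝ) ≤ q := by exact_mod_cast hq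
  have h1 : (q : ℝ) ≤ (q : ℝ) ^ A := by
    calc (q : ℝ) = (q : ℝ) ^ (1 : ℝ) := (Real.rpow_one _).symm
      _ ≤ (q : ℝ) ^ A := Real.rpow_le_rpow_of_exponent_le (by linarith) hA
  unfold excess Pool.Agent.SG.exc
  rw [intervalIntegral.integral_of_le h1]

/-- The window in logarithmic form. -/
theorem window (q N : ℕ) (hq : 3 ≤ q) (X : ℝ) (hX : (q : ℝ) ≤ X) :
    0 < X ∧ Real.log q ≤ Real.log X ∧ 1 < Q q (1000 * (N + 1)) X ∧
      Pool.Agent.SF.loN q N (Real.log X) = max 1 (X / Q q (1000 * (N + 1)) X) ∧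
      Pool.Agent.SF.upN q N (Real.log X) = X * Q q (1000 * (N + 1)) X := by
  have h3 : (3 : ℝ) ≤ q := by exact_mod_cast hq
  have hq0 : (0 : ℝ) < q := by linarith
  have hX0 : 0 < X := lt_of_lt_of_le hq0 hX
  have hlq : 1 ≤ Real.log q := by
    rw [Real.le_log_iff_exp_le hq0]
    exact Real.exp_one_lt_d9.le.trans (by linarith)
  have h1 : Real.log q ≤ Real.log X := Real.log_le_log hq0 hX
  have hp : 1 < (q : ℝ) * Real.log X := by nlinarith
  have hQ : 1 < Q q (1000 * (N + 1)) X := by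
    unfold Q
    exact one_lt_pow₀ hp (by positivity)
  have hlQ : Real.log (Q q (1000 * (N + 1)) X) = ((N : ℝ) + 1) * (1000 * Real.log (q * Real.log X)) := by
    unfold Q
    rw [Real.log_pow]
    push_cast
    ring
  refine ⟨hX0, h1, hQ, ?_, ?_⟩
  · unfold Pool.Agent.SF.loN
    rw [← hlQ, Real.exp_sub, Real.exp_log hX0, Real.exp_log (by linarith)]
  · unfold Pool.Agent.SF.upN
    rw [← hlQ, Real.exp_add, Real.exp_log hX0, Real.exp_log (by linarith)]

/-- From the integral to the mean and to one point of the window. -/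
theorem from_integral (q N : ℕ) (hq : 3 ≤ q) (X : ℝ) (hX : (q : ℝ) ≤ X) (k : ℝ) (F : ℝ → ℝ) (hF : ∀ x, 0 ≤ F x)
    (h : k * (Real.log q * Pool.Agent.SF.lenN q N (Real.log X)) ≤
      ∫ x in Set.Ioc (Pool.Agent.SF.loN q N (Real.log X)) (Pool.Agent.SF.upN q N (Real.log X)), F x / x ^ 2) :
    k ≤ mean q (1000 * (N + 1)) X F ∧ ∃ x : ℝ, inW q (1000 * (N + 1)) X x ∧ k * (x * Real.log q) ≤ F x := by
  obtain ⟨hX0, hU, hQ1, e1, e2⟩ := window q N hq X hX
  have h3 : (3 : ℝ) ≤ q := by exact_mod_cast hq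
  have hl : 0 < Real.log q := Real.log_pos (by linarith)
  unfold Pool.Agent.SF.lenN at h
  rw [e1, e2] at h
  unfold mean inW
  set P := Q q (1000 * (N + 1)) X with hP
  have hP0 : 0 < P := by linarith
  have hX1 : 1 ≤ X := by linarith
  have hlo : max 1 (X / P) < X * P := by
    refine max_lt (by nlinarith) ?_
    rw [div_lt_iff₀ hP0]
    nlinarith [mul_pos hX0 hP0, mul_pos hX0 (by nlinarith : 0 < P * P - 1)]
  have ha : 0 < max 1 (X / P) := lt_max_of_lt_left one_pos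
  have hlen : 0 < Real.log (X * P) - Real.log (max 1 (X / P)) := by
    have := Real.log_lt_log ha hlo
    linarith
  rw [← intervalIntegral.integral_of_le hlo.le] at h
  have hEq : ∫ x in (max 1 (X / P))..(X * P), F x / (x * Real.log q) / x =
      (1 / Real.log q) * ∫ x in (max 1 (X / P))..(X * P), F x / x ^ 2 := by
    rw [← intervalIntegral.integral_const_mul]
    refine intervalIntegral.integral_congr fun x hx => ?_
    rw [Set.uIcc_of_le hlo.le] at hx
    have hx0 : 0 < x := lt_of_lt_of_le ha hx.1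
    field_simp
  constructor
  · rw [hEq, le_div_iff₀ hlen, one_div, ← div_eq_inv_mul, le_div_iff₀ hl]
    refine le_trans (le_of_eq ?_) h
    ring
  · by_contra hcon
    push Not at hcon
    have hne : (0 : ℝ) ∉ Set.uIcc (max 1 (X / P)) (X * P) := by
      rw [Set.uIcc_of_le hlo.le]
      exact fun h0 => absurd h0.1 (not_le.2 ha)
    have hpt : ∀ x, max 1 (X / P) ≤ x → x ≤ X * P → F x < k * (x * Real.log q) := fun x hx1 hx2 =>
      hcon x ⟨(le_max_left _ _).trans hx1, (le_max_right _ _).trans hx1, hx2⟩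
    have hk : 0 < k := by
      have h5 := hpt (X * P) hlo.le le_rfl
      have h6 : 0 < k * (X * P * Real.log q) := lt_of_le_of_lt (hF _) h5
      have h7 : 0 < X * P * Real.log q := by positivity
      exact (pos_iff_pos_of_mul_pos h6).2 h7
    have hint : IntervalIntegrable (fun x : ℝ => k * Real.log q * (1 / x)) volume (max 1 (X / P)) (X * P) := by
      refine ContinuousOn.intervalIntegrable ?_
      refine continuousOn_const.mul (continuousOn_const.div continuousOn_id fun x hx h0 => ?_)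
      exact hne (by rw [← h0]; exact hx)
    have hval : ∫ x in (max 1 (X / P))..(X * P), k * Real.log q * (1 / x) =
        k * Real.log q * (Real.log (X * P) - Real.log (max 1 (X / P))) := by
      rw [intervalIntegral.integral_const_mul, integral_one_div hne, Real.log_div (by positivity) ha.ne']
    by_cases hgi : IntervalIntegrable (fun x => F x / x ^ 2) volume (max 1 (X / P)) (X * P)
    · have hpos := intervalIntegral.intervalIntegral_pos_of_pos_on (hint.sub hgi) (fun x hx => by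
        have hx0 : 0 < x := lt_trans ha hx.1
        have h5 := hpt x hx.1.le hx.2.le
        have h6 : F x / x ^ 2 < k * (x * Real.log q) / x ^ 2 := by gcongr
        have h7 : k * (x * Real.log q) / x ^ 2 = k * Real.log q * (1 / x) := by
          field_simp
        linarith) hlo
      rw [intervalIntegral.integral_sub hint hgi, hval] at hpos
      nlinarith
    · rw [intervalIntegral.integral_undef hgi] at h
      have : 0 < k * (Real.log q * (Real.log (X * P) - Real.log (max 1 (X / P)))) := by positivity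
      linarith

/-- The number of reduced residues. -/
theorem card_reduced (q : ℕ) :
    (((Finset.Icc 1 q).filter (fun a => Nat.Coprime a q)).card : ℝ) = (Nat.totient q : ℝ) := by
  have h4 := Nat.filter_coprime_Ico_eq_totient q 1
  have h5 : (Finset.Icc 1 q).filter (fun a => Nat.Coprime a q) =
      (Finset.Ico 1 (1 + q)).filter (fun a => q.Coprime a) := by
    ext a
    simp only [Finset.mem_filter, Finset.mem_Icc, Finset.mem_Ico]
    rw [Nat.coprime_comm]
    constructor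
    · rintro ⟨⟨h6, h7⟩, h8⟩
      exact ⟨⟨h6, by omega⟩, h8⟩
    · rintro ⟨⟨h6, h7⟩, h8⟩
      exact ⟨⟨h6, by omega⟩, h8⟩
  rw [h5]
  exact_mod_cast h4

/-- One class with at least the mean. -/
theorem one_class (q : ℕ) (hq : 3 ≤ q) (F : ℕ → ℝ) (y : ℝ)
    (h : y ≤ ∑ a ∈ (Finset.Icc 1 q).filter (fun a => Nat.Coprime a q), F a) :
    ∃ a : ℕ, 1 ≤ a ∧ a ≤ q ∧ Nat.Coprime a q ∧ y / (Nat.totient q : ℝ) ≤ F a := by
  have hφ : (0 : ℝ) < (Nat.totient q : ℝ) := by
    exact_mod_cast Nat.totient_pos.mpr (by omega)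
  have hne : ((Finset.Icc 1 q).filter (fun a => Nat.Coprime a q)).Nonempty := by
    rw [← Finset.card_pos]
    have : (0 : ℝ) < (((Finset.Icc 1 q).filter (fun a => Nat.Coprime a q)).card : ℝ) := by
      rw [card_reduced q]
      exact hφ
    exact_mod_cast this
  have hs : ∑ a ∈ (Finset.Icc 1 q).filter (fun a => Nat.Coprime a q), y / (Nat.totient q : ℝ) ≤
      ∑ a ∈ (Finset.Icc 1 q).filter (fun a => Nat.Coprime a q), F a := by
    rw [Finset.sum_const, nsmul_eq_mul, card_reduced q, mul_div_cancel₀ _ hφ.ne']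
    exact h
  obtain ⟨a, ha, h1⟩ := Finset.exists_le_of_sum_le hne hs
  simp only [Finset.mem_filter, Finset.mem_Icc] at ha
  exact ⟨a, ha.1.1, ha.1.2, ha.2, h1⟩

/-- For every `ε > 0` and `B ≥ 1` there are `K` and `q₀` such that every `q ≥ q₀` has the following properties for EVERY `X ≥ q` (no upper
bound on `X`), with `Q = (q log X)^K` and the window `W` of the `x ≥ 1` in `[X/Q, XQ]`.
(1) The mean of `V(x; q)/(x log q)` over `W` (with respect to `dx/x`) is at least `2/3 - ε`, and for some `x` in `W` and some reduced residue `a` the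
square of `ψ(x; q, a) - x/φ(q)` is at least `(2/3 - ε) x log q/φ(q)`.
(2) The same for the race variance `V_g` and EVERY ratio `g` prime to `q`, `g ≢ 1 (mod q)`, and the square of `ψ(x; q, a) - ψ(x; q, ga)` is at least
`2 (2/3 - ε) x log q/φ(q)` for some `x` in `W` and some reduced residue `a`.
(3) For every `c` in `[0, 2/3]` there is ONE set `G` of at least `(1 - 1/(3(1-c)) - ε) φ(q)` characters modulo `q` such that for every `χ ∈ G` and
EVERY `X ≥ q` the mean of `|ψ(x, χ)|²/(x log q)` over `W` is at least `c`, and `|ψ(x, χ)|² ≥ c x log q` for some `x` in `W`.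
(4) A deficit at any scale forces an excess near `q`: for `1 ≤ A ≤ B` the mean of `V(x; q)/(x log q)` over `W` is at least
`1 - 1/(3A²) - D_A[V] - ε`, and the same for every `V_g`; so the constant is `1 - ε` at EVERY scale if the mean of `V` over `[q, q^A]`
(`A` large) does not exceed Hooley's prediction. -/
theorem result (ε : ℝ) (hε : 0 < ε) (B : ℝ) (hB : 1 ≤ B) : ∃ K q₀ : ℕ, ∀ (q : ℕ) [NeZero q], q₀ ≤ q →
    (∀ X : ℝ, (q : ℝ) ≤ X →
      2 / 3 - ε ≤ mean q K X (fun x => V x q) ∧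
      ∃ (x : ℝ) (a : ℕ), inW q K X x ∧ Nat.Coprime a q ∧
        (2 / 3 - ε) * (x * Real.log q / (Nat.totient q : ℝ)) ≤ (psi x q a - x / (Nat.totient q : ℝ)) ^ 2) ∧
    (∀ g : ℕ, Nat.Coprime g q → ¬ g % q = 1 % q → ∀ X : ℝ, (q : ℝ) ≤ X →
      2 / 3 - ε ≤ mean q K X (fun x => Vr x q g) ∧
      ∃ (x : ℝ) (a : ℕ), inW q K X x ∧ Nat.Coprime a q ∧
        2 * (2 / 3 - ε) * (x * Real.log q / (Nat.totient q : ℝ)) ≤ (psi x q a - psi x q (g * a)) ^ 2) ∧
    (∀ c : ℝ, 0 ≤ c → c ≤ 2 / 3 → ∃ G : Finset (DirichletCharacter ℂ q),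
      (1 - 1 / (3 * (1 - c)) - ε) * (Nat.totient q : ℝ) ≤ (G.card : ℝ) ∧
      ∀ χ ∈ G, ∀ X : ℝ, (q : ℝ) ≤ X →
        c ≤ mean q K X (fun x => ‖psiChar χ x‖ ^ 2) ∧ ∃ x : ℝ, inW q K X x ∧ c * (x * Real.log q) ≤ ‖psiChar χ x‖ ^ 2) ∧
    ∀ X : ℝ, (q : ℝ) ≤ X → ∀ A : ℝ, 1 ≤ A → A ≤ B →
      1 - 1 / (3 * A ^ 2) - excess q A (fun x => V x q) - ε ≤ mean q K X (fun x => V x q) ∧
      ∀ g : ℕ, Nat.Coprime g q → ¬ g % q = 1 % q →
        1 - 1 / (3 * A ^ 2) - excess q A (fun x => Vr x q g) - ε ≤ mean q K X (fun x => Vr x q g) := by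
  classical
  have he : 0 < min ε (1 / 2) := lt_min hε (by norm_num)
  have heε : min ε (1 / 2) ≤ ε := min_le_left _ _
  obtain ⟨N₁, hN₁, H₁⟩ := Pool.Agent.SF.final_V (min ε (1 / 2)) he (min_le_right _ _)
  obtain ⟨N₂, hN₂, H₂⟩ := Pool.Agent.SF.final_Vc (min ε (1 / 2)) he (min_le_right _ _)
  obtain ⟨N₃, hN₃, H₃⟩ := Pool.Agent.SF.final_count (min ε (1 / 2)) he (min_le_right _ _)
  obtain ⟨N₄, hN₄, H₄⟩ := Pool.Agent.SG.final_VB B hB (min ε (1 / 2)) he (min_le_right _ _)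
  obtain ⟨N₅, hN₅, H₅⟩ := Pool.Agent.SG.final_VcB B hB (min ε (1 / 2)) he (min_le_right _ _)
  obtain ⟨N, hN⟩ : ∃ N : ℕ, N = max (max N₁ (max N₂ N₃)) (max N₄ N₅) := ⟨_, rfl⟩
  obtain ⟨q₁, hq₁, H₁⟩ := H₁ N (by omega)
  obtain ⟨q₂, hq₂, H₂⟩ := H₂ N (by omega)
  obtain ⟨q₃, hq₃, H₃⟩ := H₃ N (by omega)
  obtain ⟨q₄, hq₄, H₄⟩ := H₄ N (by omega)
  obtain ⟨q₅, hq₅, H₅⟩ := H₅ N (by omega)
  refine ⟨1000 * (N + 1), max (max q₁ (max q₂ q₃)) (max q₄ q₅), fun q _ hq => ?_⟩
  have hqq1 : q₁ ≤ q := by omega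
  have hqq2 : q₂ ≤ q := by omega
  have hqq3 : q₃ ≤ q := by omega
  have hqq4 : q₄ ≤ q := by omega
  have hqq5 : q₅ ≤ q := by omega
  have hq3 : 3 ≤ q := hq₁.trans hqq1
  have h3 : (3 : ℝ) ≤ q := by exact_mod_cast hq3
  have hq0 : (0 : ℝ) < q := by linarith
  have hlq : 0 < Real.log q := Real.log_pos (by linarith)
  have hφ : (0 : ℝ) < (Nat.totient q : ℝ) := by
    exact_mod_cast Nat.totient_pos.mpr (by omega)
  have hlow : ∀ (F : ℝ → ℝ) (X : ℝ), (q : ℝ) ≤ X → (∀ x, 0 ≤ F x) →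
      (2 / 3 - min ε (1 / 2)) * (Real.log q * Pool.Agent.SF.lenN q N (Real.log X)) ≤
        ∫ x in Set.Ioc (Pool.Agent.SF.loN q N (Real.log X)) (Pool.Agent.SF.upN q N (Real.log X)), F x / x ^ 2 →
      2 / 3 - ε ≤ mean q (1000 * (N + 1)) X F ∧
        ∃ x : ℝ, inW q (1000 * (N + 1)) X x ∧ (2 / 3 - ε) * (x * Real.log q) ≤ F x := by
    intro F X hX hF h
    obtain ⟨h1, x, hx1, hx2⟩ := from_integral q N hq3 X hX _ F hF h
    refine ⟨by linarith, x, hx1, le_trans ?_ hx2⟩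
    have hx0 : 0 ≤ x * Real.log q := by
      have := hx1.1
      positivity
    exact mul_le_mul_of_nonneg_right (by linarith) hx0
  refine ⟨fun X hX => ?_, fun g hg hg1 X hX => ?_, fun c hc hc1 => ?_, fun X hX A hA hAB => ⟨?_, fun g hg hg1 => ?_⟩⟩
  · obtain ⟨h1, x, hx, hV⟩ := hlow (fun x => V x q) X hX (fun x => Finset.sum_nonneg fun a _ => sq_nonneg _)
      (H₁ q hqq1 (Real.log X) (Real.log_le_log hq0 hX))
    refine ⟨h1, x, ?_⟩
    obtain ⟨a, _, _, ha3, ha4⟩ := one_class q hq3 (fun a => (psi x q a - x / (Nat.totient q : ℝ)) ^ 2) _ hV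
    refine ⟨a, hx, ha3, le_trans (le_of_eq ?_) ha4⟩
    ring
  · obtain ⟨h1, x, hx, hV⟩ := hlow (fun x => Vr x q g) X hX
      (fun x => mul_nonneg (by norm_num) (Finset.sum_nonneg fun a _ => sq_nonneg _))
      (H₂ q hqq2 g hg hg1 (Real.log X) (Real.log_le_log hq0 hX))
    refine ⟨h1, x, ?_⟩
    have hV2 : 2 * ((2 / 3 - ε) * (x * Real.log q)) ≤ ∑ a ∈ (Finset.Icc 1 q).filter (fun a => Nat.Coprime a q),
        (psi x q a - psi x q (g * a)) ^ 2 := by
      simp only [Vr] at hV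
      linarith
    obtain ⟨a, _, _, ha3, ha4⟩ := one_class q hq3 (fun a => (psi x q a - psi x q (g * a)) ^ 2) _ hV2
    refine ⟨a, hx, ha3, le_trans (le_of_eq ?_) ha4⟩
    ring
  · have h4 := H₃ q hqq3 c hc hc1
    obtain ⟨S, hS⟩ : ∃ S : Set (DirichletCharacter ℂ q), S = {χ : DirichletCharacter ℂ q | ∀ U : ℝ, Real.log q ≤ U →
          c * (Real.log q * Pool.Agent.SF.lenN q N U) ≤
            ∫ x in Set.Ioc (Pool.Agent.SF.loN q N U) (Pool.Agent.SF.upN q N U), ‖Pool.Agent.EM.psiC χ x‖ ^ 2 / x ^ 2} := ⟨_, rfl⟩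
    rw [← hS] at h4
    have hfin : S.Finite := Set.toFinite S
    refine ⟨hfin.toFinset, ?_, fun χ hχ X hX => ?_⟩
    · rw [← Set.ncard_eq_toFinset_card S hfin]
      refine le_trans (mul_le_mul_of_nonneg_right ?_ hφ.le) h4
      linarith
    · rw [Set.Finite.mem_toFinset, hS] at hχ
      exact from_integral q N hq3 X hX c (fun x => ‖psiChar χ x‖ ^ 2) (fun x => by positivity)
        (hχ (Real.log X) (Real.log_le_log hq0 hX))
  · have h4 := (from_integral q N hq3 X hX _ (fun x => V x q) (fun x => Finset.sum_nonneg fun a _ => sq_nonneg _)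
      (H₄ q hqq4 (Real.log X) (Real.log_le_log hq0 hX) A hA hAB)).1
    rw [excess_eq q hq3 A hA]
    refine le_trans ?_ h4
    have h5 : Pool.Agent.SG.exc q A (fun x => V x q) = Pool.Agent.SG.exc q A (fun x => Pool.Agent.EM.V x q) := rfl
    rw [h5]
    linarith
  · have h4 := (from_integral q N hq3 X hX _ (fun x => Vr x q g)
      (fun x => mul_nonneg (by norm_num) (Finset.sum_nonneg fun a _ => sq_nonneg _))
      (H₅ q hqq5 g hg hg1 (Real.log X) (Real.log_le_log hq0 hX) A hA hAB)).1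
    rw [excess_eq q hq3 A hA]
    refine le_trans ?_ h4
    have h5 : Pool.Agent.SG.exc q A (fun x => Vr x q g) = Pool.Agent.SG.exc q A (fun x => Pool.Agent.SW.Vc x q g) := rfl
    rw [h5]
    linarith

end Pool.Agent.Results.MP_9cfc0a_nt.EveryScale
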