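import Mathlib
import Pool.Agent.Lib.MP_9cfc0a_nt.SD.AA

set_option autoImplicit false

namespace Pool.Agent.Results.MP_9cfc0a_nt.HooleyExcess

open MeasureTheory

/-- `ψ(x; q, a)`: the sum of `Λ(n)` over `1 ≤ n ≤ x` with `n ≡ a (mod q)`. -/
noncomputable def psi (x : ℝ) (q a : ℕ) : ℝ :=
  ∑ n ∈ (Finset.Icc 1 ⌊x⌋₊).filter (fun n => n % q = a % q), ArithmeticFunction.vonMangoldt n

/-- `V(x; q)`: the sum of `(ψ(x; q, a) - x / φ(q))²` over the reduced residues `1 ≤ a ≤ q`. -/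
noncomputable def V (x : ℝ) (q : ℕ) : ℝ :=
  ∑ a ∈ (Finset.Icc 1 q).filter (fun a => Nat.Coprime a q),
    (psi x q a - x / (Nat.totient q : ℝ)) ^ 2

/-- `ψ(x, χ)`: the sum of `χ(n) Λ(n)` over `1 ≤ n ≤ x`. -/
noncomputable def psiChar {q : ℕ} (χ : DirichletCharacter ℂ q) (x : ℝ) : ℂ :=
  ∑ n ∈ Finset.Icc 1 ⌊x⌋₊, χ n * ((ArithmeticFunction.vonMangoldt n : ℝ) : ℂ)

/-- The simple zeros `ρ` of `L(s, χ)` on the line `Re s = 1/2` with `|Im ρ| ≤ T`. -/
def simpleZeros {q : ℕ} [NeZero q] (χ : DirichletCharacter ℂ q) (T : ℝ) : Set ℂ :=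
  {ρ : ℂ | ρ.re = 1 / 2 ∧ |ρ.im| ≤ T ∧ χ.LFunction ρ = 0 ∧ deriv χ.LFunction ρ ≠ 0}

/-- The zeros `ρ` of `L(s, χ)` with `0 < Re ρ < 1` and `|Im ρ| ≤ T`. -/
def allZeros {q : ℕ} [NeZero q] (χ : DirichletCharacter ℂ q) (T : ℝ) : Set ℂ :=
  {ρ : ℂ | 0 < ρ.re ∧ ρ.re < 1 ∧ |ρ.im| ≤ T ∧ χ.LFunction ρ = 0}

/-- The sum of `1/|ρ|²` over the simple zeros on the line with `|Im ρ| ≤ T`
(on the line `|ρ|² = 1/4 + (Im ρ)²`). -/
noncomputable def simpleSum {q : ℕ} [NeZero q] (χ : DirichletCharacter ℂ q) (T : ℝ) : ℝ :=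
  ∑ᶠ ρ ∈ simpleZeros χ T, 1 / ‖ρ‖ ^ 2

/-- The sum of `m(ρ)/(1/4 + (Im ρ)²)` over all zeros in the strip with `|Im ρ| ≤ T`, `m(ρ)` the multiplicity. -/
noncomputable def allSum {q : ℕ} [NeZero q] (χ : DirichletCharacter ℂ q) (T : ℝ) : ℝ :=
  ∑ᶠ ρ ∈ allZeros χ T, (analyticOrderNatAt χ.LFunction ρ : ℝ) / (1 / 4 + ρ.im ^ 2)

/-- `σ`: the mean of `simpleSum χ T` over all characters modulo `q`, divided by `log q`. -/
noncomputable def sigma (q : ℕ) [NeZero q] (T : ℝ) : ℝ :=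
  (∑ χ : DirichletCharacter ℂ q, simpleSum χ T) / ((Nat.totient q : ℝ) * Real.log q)

/-- For every `ε > 0` there is `T₀` such that for every `T ≥ T₀` all large moduli `q` have the following properties, where
`σ = sigma q T`.
(5) `2/3 - ε ≤ σ ≤ 1 + ε`.
(1), (2) There is a set `S` of at least `(1 - ε) φ(q)` characters modulo `q` such that for `χ ∈ S` the sum `allSum χ T` over all zeros lies
between `(1 - ε) log q` and `(1 + ε) log q`, the simple zeros on the line carry at least `2/3 - ε` of the sum of these over `S`, and the mean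
square of `ψ(x, χ)` has the lower bound (2).
(3), (4) For all real `y` with `q ≤ y ≤ exp((log q)^(2-ε))` the variance `V(x; q)` has the lower bound (3) in the mean over `[1, y]`, and its
excess over Hooley's prediction `x log q` in the mean over `[q, y]` is at least `1 - σ - (1/3) (log q/log y)² - ε`. -/
theorem result (ε : ℝ) (hε : 0 < ε) : ∃ T₀ : ℝ, ∀ T : ℝ, T₀ ≤ T → ∃ q₀ : ℕ, ∀ (q : ℕ) [NeZero q], q₀ ≤ q →
    (2 / 3 - ε ≤ sigma q T ∧ sigma q T ≤ 1 + ε) ∧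
    (∃ S : Finset (DirichletCharacter ℂ q), (1 - ε) * (Nat.totient q : ℝ) ≤ (S.card : ℝ) ∧
      (∀ χ ∈ S, simpleSum χ T ≤ allSum χ T ∧
        (1 - ε) * Real.log q ≤ allSum χ T ∧ allSum χ T ≤ (1 + ε) * Real.log q) ∧
      (2 / 3 - ε) * ∑ χ ∈ S, allSum χ T ≤ ∑ χ ∈ S, simpleSum χ T ∧
      ∀ χ ∈ S, ∀ y : ℝ, (q : ℝ) ≤ y → y ≤ Real.exp (Real.log q ^ (2 - ε)) →
        1 / 2 * Real.log q * Real.log (y / q) + 1 / 2 * Real.log y * (Real.log q - simpleSum χ T) -
            ε * Real.log q * Real.log y ≤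
          ∫ x in (1 : ℝ)..y, (1 - Real.log x / Real.log y) * ‖psiChar χ x‖ ^ 2 / x ^ 2) ∧
    ∀ y : ℝ, (q : ℝ) ≤ y → y ≤ Real.exp (Real.log q ^ (2 - ε)) →
      1 / 2 * Real.log q * Real.log (y / q) + 1 / 2 * Real.log q * Real.log y * (1 - sigma q T) -
          ε * Real.log q * Real.log y ≤
        ∫ x in (1 : ℝ)..y, (1 - Real.log x / Real.log y) * V x q / x ^ 2 ∧
      1 / 2 * Real.log q * Real.log y * (1 - sigma q T - 1 / 3 * (Real.log q / Real.log y) ^ 2 - ε) ≤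
        ∫ x in (q : ℝ)..y, (1 - Real.log x / Real.log y) * (V x q - x * Real.log q) / x ^ 2 := by
  obtain ⟨T₀, _, h⟩ := Pool.Agent.SD.main ε hε
  refine ⟨T₀, fun T hT => ?_⟩
  obtain ⟨q₀, hq₀, H⟩ := h T hT
  refine ⟨q₀, fun q _ hq => ?_⟩
  have h3 : (3 : ℝ) ≤ q := by exact_mod_cast hq₀.trans hq
  obtain ⟨h1, ⟨S, hS1, hS2, hS3, hS4⟩, h5⟩ := H q hq
  refine ⟨h1, ⟨S, hS1, hS2, hS3, fun χ hχ y hy1 hy2 => ?_⟩, fun y hy1 hy2 => ?_⟩
  · have hy0 : 0 < y := by linarith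
    have h4 := hS4 χ hχ y hy1 (by rwa [Real.log_le_iff_le_exp hy0])
    rw [intervalIntegral.integral_of_le (by linarith), Real.log_div hy0.ne' (by linarith)]
    have e1 : MP9cfc0a.SK.En χ y =
        ∫ x in Set.Ioc 1 y, (1 - Real.log x / Real.log y) * ‖psiChar χ x‖ ^ 2 / x ^ 2 := by
      unfold MP9cfc0a.SK.En
      refine setIntegral_congr_fun measurableSet_Ioc fun t _ => ?_
      simp only [mul_div_assoc]
      rfl
    rw [← e1]
    refine le_trans (le_of_eq ?_) h4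
    show _ = 1 / 2 * (2 * (Real.log q * Real.log y) - Real.log q ^ 2) -
      1 / 2 * Real.log y * simpleSum χ T - ε * (Real.log q * Real.log y)
    ring
  · have hy0 : 0 < y := by linarith
    obtain ⟨h6, h7⟩ := h5 y hy1 (by rwa [Real.log_le_iff_le_exp hy0])
    constructor
    · rw [intervalIntegral.integral_of_le (by linarith), Real.log_div hy0.ne' (by linarith)]
      have e1 : ∫ x in Set.Ioc 1 y, (1 - Real.log x / Real.log y) * (Pool.Agent.EM.V x q / x ^ 2) =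
          ∫ x in Set.Ioc 1 y, (1 - Real.log x / Real.log y) * V x q / x ^ 2 := by
        refine setIntegral_congr_fun measurableSet_Ioc fun t _ => ?_
        simp only [mul_div_assoc]
        rfl
      rw [← e1]
      refine le_trans (le_of_eq ?_) h6
      show _ = 1 / 2 * (2 * (Real.log q * Real.log y) - Real.log q ^ 2) -
        1 / 2 * (Real.log q * Real.log y) * sigma q T - ε * (Real.log q * Real.log y)
      ring
    · rw [intervalIntegral.integral_of_le hy1]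
      have e1 : ∫ x in Set.Ioc (q : ℝ) y, (1 - Real.log x / Real.log y) *
          ((Pool.Agent.EM.V x q - x * Real.log q) / x ^ 2) =
          ∫ x in Set.Ioc (q : ℝ) y, (1 - Real.log x / Real.log y) * (V x q - x * Real.log q) / x ^ 2 := by
        refine setIntegral_congr_fun measurableSet_Ioc fun t _ => ?_
        simp only [mul_div_assoc]
        rfl
      rw [← e1]
      refine le_trans (le_of_eq ?_) h7
      show _ = 1 / 2 * (Real.log q * Real.log y) *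
        (1 - sigma q T - 1 / 3 * (Real.log q / Real.log y) ^ 2 - ε)
      ring

end Pool.Agent.Results.MP_9cfc0a_nt.HooleyExcess
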