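import Mathlib
import Pool.Agent.Lib.MP_9cfc0a_nt.MU.U14
import Pool.Agent.Lib.MP_9cfc0a_nt.MU.U15
import Pool.Agent.Lib.MP_9cfc0a_nt.MY.AA
import Pool.Agent.Lib.MP_9cfc0a_nt.TS.Ag

set_option autoImplicit false

namespace Pool.Agent.Results.MP_9cfc0a_nt.ManyClasses

/-- `ψ(x; q, a)`: the sum of `Λ(n)` over `1 ≤ n ≤ x` with `n ≡ a (mod q)`. -/
noncomputable def psi (x : ℝ) (q a : ℕ) : ℝ :=
  ∑ n ∈ (Finset.Icc 1 ⌊x⌋₊).filter (fun n => n % q = a % q), ArithmeticFunction.vonMangoldt n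

/-- The sum of `(ψ(x; q, a) - m)²` over the `1 ≤ a ≤ q` coprime to `q` and outside `B`. -/
noncomputable def VOff (q : ℕ) (B : Finset ℕ) (m x : ℝ) : ℝ :=
  ∑ a ∈ (Finset.Icc 1 q).filter (fun a => Nat.Coprime a q ∧ a ∉ B), (psi x q a - m) ^ 2

/-- The zeros `ρ` of `L(s, χ)` with `θ ≤ Re ρ < 1` and `|Im ρ| ≤ T` (finitely many:
`zeros_finite`). -/
def zeros {q : ℕ} [NeZero q] (χ : DirichletCharacter ℂ q) (θ T : ℝ) : Set ℂ :=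
  {ρ | χ.LFunction ρ = 0 ∧ θ ≤ ρ.re ∧ ρ.re < 1 ∧ |ρ.im| ≤ T}

open Classical in
/-- The sum of `m(ρ) X^(2 (Re ρ - θ))` over all characters `χ ≠ χ₀` mod `q` and all zeros `ρ` of
`L(s, χ)` with `θ ≤ Re ρ < 1` and `|Im ρ| ≤ T`, where `m(ρ)` is the multiplicity. -/
noncomputable def zeroSum (q : ℕ) [NeZero q] (θ T X : ℝ) : ℝ :=
  ∑ χ ∈ (Finset.univ : Finset (DirichletCharacter ℂ q)).filter (fun χ => χ ≠ 1),
    ∑ᶠ ρ ∈ zeros χ θ T, (analyticOrderNatAt χ.LFunction ρ : ℝ) * X ^ (2 * (ρ.re - θ))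

/-- `Small θ C A K q B`: `|ψ(x; q, a) - x / φ(q)| ≤ q^C x^θ` for all `1 ≤ a ≤ q` coprime to `q` and
outside `B` and all real `x` with `q^A ≤ x ≤ q^K`. -/
def Small (θ C A : ℝ) (K q : ℕ) (B : Finset ℕ) : Prop :=
  ∀ a : ℕ, 1 ≤ a → a ≤ q → Nat.Coprime a q → a ∉ B → ∀ x : ℝ, (q : ℝ) ^ A ≤ x → x ≤ (q : ℝ) ^ K →
    |psi x q a - x / (Nat.totient q : ℝ)| ≤ (q : ℝ) ^ C * x ^ θ

/-- `ZeroFree θ`: no Dirichlet `L`-function of any modulus has a zero with `θ < Re s < 1`. The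
generalised Riemann hypothesis is `ZeroFree (1/2)`. -/
def ZeroFree (θ : ℝ) : Prop :=
  ∀ (d : ℕ) [NeZero d] (χ : DirichletCharacter ℂ d) (s : ℂ), θ < s.re → s.re < 1 →
    χ.LFunction s ≠ 0

lemma zeros_eq {q : ℕ} [NeZero q] (χ : DirichletCharacter ℂ q) (θ T : ℝ) :
    zeros χ θ T = (Pool.Agent.TS.Zf χ θ T : Set ℂ) := by
  ext ρ
  rw [Finset.mem_coe, Pool.Agent.TS.mem_Zf_iff]
  rfl

theorem zeros_finite {q : ℕ} [NeZero q] (χ : DirichletCharacter ℂ q) (θ T : ℝ) :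
    (zeros χ θ T).Finite := by
  rw [zeros_eq]
  exact Finset.finite_toSet _

lemma zeroSum_eq (q : ℕ) [NeZero q] (θ T X : ℝ) :
    zeroSum q θ T X = ∑ χ ∈ Pool.Agent.MY.nt q, ∑ ρ ∈ Pool.Agent.TS.Zf χ θ T,
      Pool.Agent.TS.mu χ ρ * X ^ (2 * (ρ.re - θ)) := by
  classical
  unfold zeroSum
  refine Finset.sum_congr ?_ fun χ _ => ?_
  · ext χ
    rw [Pool.Agent.MY.mem_nt, Finset.mem_filter]
    simp
  · rw [zeros_eq, finsum_mem_coe_finset]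
    refine Finset.sum_congr rfl fun ρ hρ => ?_
    rw [Pool.Agent.TS.mem_Zf_iff] at hρ
    rw [Pool.Agent.TS.mu_eq χ ρ hρ.2.2.1]

/-- (1) Let `1/2 ≤ θ < 1`, `β < θ/(2-θ)` and `ε > 0`. There are `ν > 0`, `K` and `q₀` such that for
all `q ≥ q₀`, all real `X ≥ q`, all sets `B` of at most `q^β` integers and all real functions `m`
(for which the integral makes sense) the sum of `X^(2 (Re ρ - θ))` over the zeros `ρ`, with
multiplicity, of all `L(s, χ)`, `χ ≠ χ₀` modulo `q`, with `θ ≤ Re ρ < 1`, `|Im ρ| ≤ q^ν` is at most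
`φ(q) X^ε` times the integral of `VOff q B (m x) x / x^(1+2θ)` over `[X, X^K]`.
(2) The case `θ = 1/2`, unconditionally: for all `β < 1/3` and `ε > 0` there are `K` and `q₀` such
that for all such `q`, `X`, `B`, `m` the integral of `VOff q B (m x) x / x²` over `[X, X^K]` is at
least `X^(-ε)`; and there are classes `a`, `a'` coprime to `q`, in `[1, q]` and outside `B`, and a
real `x` in `[X, X^K]` with `|ψ(x; q, a) - ψ(x; q, a')| ≥ (x/q)^(1/2) / X^ε`.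
(3) Let `1/2 ≤ θ < 1`, `C ≥ 0`, `A ≥ 1`. No Dirichlet `L`-function has a zero with `θ < Re s < 1`
if and only if for all `d ≥ 1`, `ε > 0`, `K` and `Q` there are a multiple `q ≥ Q` of `d` and a set `B`
of at most `q^(θ/(2-θ))` integers such that the errors outside `B` are at most `q^C x^(θ+ε)` for
`q^A ≤ x ≤ q^K`. For `θ = 1/2` this is the generalised Riemann hypothesis, with at most `q^(1/3)`
exceptional classes. -/
theorem result :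
    (∀ θ β ε : ℝ, 1 / 2 ≤ θ → θ < 1 → β < θ / (2 - θ) → 0 < ε →
      ∃ (ν : ℝ) (K q₀ : ℕ), 0 < ν ∧ ∀ (q : ℕ) [NeZero q], q₀ ≤ q → ∀ X : ℝ, (q : ℝ) ≤ X →
      ∀ B : Finset ℕ, (B.card : ℝ) ≤ (q : ℝ) ^ β → ∀ m : ℝ → ℝ,
      IntervalIntegrable (fun x => VOff q B (m x) x / x ^ (1 + 2 * θ)) MeasureTheory.volume
        X (X ^ K) →
      zeroSum q θ ((q : ℝ) ^ ν) X
        ≤ Nat.totient q * X ^ ε * ∫ x in X..(X ^ K), VOff q B (m x) x / x ^ (1 + 2 * θ)) ∧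
    (∀ β ε : ℝ, β < 1 / 3 → 0 < ε → ∃ K q₀ : ℕ, ∀ q : ℕ, q₀ ≤ q → ∀ X : ℝ, (q : ℝ) ≤ X →
      ∀ B : Finset ℕ, (B.card : ℝ) ≤ (q : ℝ) ^ β →
      (∀ m : ℝ → ℝ, IntervalIntegrable (fun x => VOff q B (m x) x / x ^ 2) MeasureTheory.volume
          X (X ^ K) →
        X ^ (-ε) ≤ ∫ x in X..(X ^ K), VOff q B (m x) x / x ^ 2) ∧
      ∃ a a' : ℕ, (1 ≤ a ∧ a ≤ q ∧ Nat.Coprime a q ∧ a ∉ B) ∧
        (1 ≤ a' ∧ a' ≤ q ∧ Nat.Coprime a' q ∧ a' ∉ B) ∧ ∃ x : ℝ, X ≤ x ∧ x ≤ X ^ K ∧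
        (x / q) ^ (1 / 2 : ℝ) / X ^ ε ≤ |psi x q a - psi x q a'|) ∧
    (∀ θ C A : ℝ, 1 / 2 ≤ θ → θ < 1 → 0 ≤ C → 1 ≤ A →
      (ZeroFree θ ↔ ∀ d : ℕ, 1 ≤ d → ∀ ε : ℝ, 0 < ε → ∀ K Q : ℕ, ∃ q : ℕ, Q ≤ q ∧ d ∣ q ∧
        ∃ B : Finset ℕ, (B.card : ℝ) ≤ (q : ℝ) ^ (θ / (2 - θ)) ∧ Small (θ + ε) C A K q B)) := by
  refine ⟨fun θ β ε hθ hθ1 hβ hε => ?_, fun β ε hβ hε => ?_, fun θ C A hθ hθ1 hC hA => ?_⟩
  · obtain ⟨ν, K, q₀, hν, -, h⟩ := Pool.Agent.MU.zeros_weightedU_nat θ β ε hθ hθ1 hβ hε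
    refine ⟨ν, K, q₀, hν, fun q _ hq X hX B hB m hm => ?_⟩
    rw [zeroSum_eq]
    exact h q hq X hX B hB m hm
  · exact Pool.Agent.MU.half_off_nat β ε hβ hε
  · exact Pool.Agent.MY.zf_iff θ C A hθ hθ1 hC hA

end Pool.Agent.Results.MP_9cfc0a_nt.ManyClasses
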