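import Mathlib
import Pool.Agent.Lib.MP_9cfc0a_nt.TS.Fb
import Pool.Agent.Lib.MP_9cfc0a_nt.TS.Ag
import Pool.Agent.Lib.MP_9cfc0a_nt.TS.Ah
import Pool.Agent.Lib.MP_9cfc0a_nt.TS.Gt
import Pool.Agent.Lib.MP_9cfc0a_nt.TS.Gu

set_option autoImplicit false

namespace Pool.Agent.Results.MP_9cfc0a_nt.TwoSided

/-- `ψ(x; q, a)`: the sum of `Λ(n)` over `1 ≤ n ≤ x` with `n ≡ a (mod q)`. -/
noncomputable def psi (x : ℝ) (q a : ℕ) : ℝ :=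
  ∑ n ∈ (Finset.Icc 1 ⌊x⌋₊).filter (fun n => n % q = a % q), ArithmeticFunction.vonMangoldt n

/-- `V(x; q)`: the sum of `(ψ(x; q, a) - x / φ(q))²` over the reduced residues `1 ≤ a ≤ q`. -/
noncomputable def V (x : ℝ) (q : ℕ) : ℝ :=
  ∑ a ∈ (Finset.Icc 1 q).filter (fun a => Nat.Coprime a q),
    (psi x q a - x / (Nat.totient q : ℝ)) ^ 2

/-- The zeros `ρ` of `L(s, χ)` with `σ ≤ Re ρ < 1` and `|Im ρ| ≤ T` (finitely many: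
`zeros_finite`). -/
def zeros {q : ℕ} [NeZero q] (χ : DirichletCharacter ℂ q) (σ T : ℝ) : Set ℂ :=
  {ρ | χ.LFunction ρ = 0 ∧ σ ≤ ρ.re ∧ ρ.re < 1 ∧ |ρ.im| ≤ T}

/-- The sum of `m(ρ) X^(2 (Re ρ - σ)) / |ρ|²` over all characters `χ` mod `q` (the principal one
included) and all zeros `ρ` of `L(s, χ)` with `σ ≤ Re ρ < 1` and `|Im ρ| ≤ T`, where `m(ρ)` is the
multiplicity. -/
noncomputable def zeroSum (q : ℕ) [NeZero q] (σ T X : ℝ) : ℝ :=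
  ∑ χ : DirichletCharacter ℂ q, ∑ᶠ ρ ∈ zeros χ σ T,
    (analyticOrderNatAt χ.LFunction ρ : ℝ) * X ^ (2 * (ρ.re - σ)) / ‖ρ‖ ^ 2

/-- The number of zeros `ρ` of all `L(s, χ)` mod `q`, counted with multiplicity, with
`σ ≤ Re ρ < 1` and `|Im ρ| ≤ T`. -/
noncomputable def zeroCount (q : ℕ) [NeZero q] (σ T : ℝ) : ℝ :=
  ∑ χ : DirichletCharacter ℂ q, ∑ᶠ ρ ∈ zeros χ σ T, (analyticOrderNatAt χ.LFunction ρ : ℝ)

lemma zeros_eq {q : ℕ} [NeZero q] (χ : DirichletCharacter ℂ q) (σ T : ℝ) :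
    zeros χ σ T = (Pool.Agent.TS.Zf χ σ T : Set ℂ) := by
  ext ρ
  rw [Finset.mem_coe, Pool.Agent.TS.mem_Zf_iff]
  rfl

theorem zeros_finite {q : ℕ} [NeZero q] (χ : DirichletCharacter ℂ q) (σ T : ℝ) :
    (zeros χ σ T).Finite := by
  rw [zeros_eq]
  exact Finset.finite_toSet _

lemma finsum_eq {q : ℕ} [NeZero q] (χ : DirichletCharacter ℂ q) (σ T : ℝ) (f : ℂ → ℝ) :
    ∑ᶠ ρ ∈ zeros χ σ T, (analyticOrderNatAt χ.LFunction ρ : ℝ) * f ρ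
      = ∑ ρ ∈ Pool.Agent.TS.Zf χ σ T, Pool.Agent.TS.mu χ ρ * f ρ := by
  rw [zeros_eq, finsum_mem_coe_finset]
  refine Finset.sum_congr rfl fun ρ hρ => ?_
  rw [Pool.Agent.TS.mem_Zf_iff] at hρ
  rw [Pool.Agent.TS.mu_eq χ ρ hρ.2.2.1]

lemma zeroSum_eq (q : ℕ) [NeZero q] (σ T X : ℝ) :
    zeroSum q σ T X = Pool.Agent.TS.ZZ q σ T X := by
  unfold zeroSum Pool.Agent.TS.ZZ
  refine Finset.sum_congr rfl fun χ _ => ?_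
  have h := finsum_eq χ σ T (fun ρ => X ^ (2 * (ρ.re - σ)) / ‖ρ‖ ^ 2)
  simp only [mul_div_assoc]
  exact h

lemma zeroCount_eq (q : ℕ) [NeZero q] (σ T : ℝ) :
    zeroCount q σ T
      = ∑ χ : DirichletCharacter ℂ q, ∑ ρ ∈ Pool.Agent.TS.Zf χ σ T, Pool.Agent.TS.mu χ ρ := by
  unfold zeroCount
  refine Finset.sum_congr rfl fun χ _ => ?_
  have h1 := finsum_eq χ σ T (fun _ => 1)
  simp only [mul_one] at h1
  exact h1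

lemma le_pow {X : ℝ} (hX : 1 ≤ X) {K : ℕ} (hK : 1 ≤ K) : X ≤ X ^ K := by
  calc X = X ^ 1 := (pow_one X).symm
    _ ≤ X ^ K := pow_le_pow_right₀ hX hK

/-- The two-sided law, uniform in `q ≤ X`. -/
theorem two_sided : ∀ (A : ℕ) (ε : ℝ), 0 < ε → ∃ (K : ℕ) (X₀ : ℝ),
    ∀ (q : ℕ) [NeZero q] (X T σ : ℝ), (q : ℝ) ≤ X → X₀ ≤ X → 1 / 2 ≤ σ →
      (X ≤ T → ∫ x in (1 : ℝ)..X, V x q * x ^ (-1 - 2 * σ)
        ≤ X ^ ε * (1 + zeroSum q σ T X / (Nat.totient q : ℝ))) ∧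
      (T ≤ X ^ A → zeroSum q σ T X / (Nat.totient q : ℝ)
        ≤ X ^ ε * ∫ x in X..(X ^ K), V x q * x ^ (-1 - 2 * σ)) := by
  intro A ε hε
  obtain ⟨K, X₀, hK, hX₀, h⟩ := Pool.Agent.TS.two_sided A ε hε
  refine ⟨K, X₀, fun q _ X T σ hqX hX hσ => ?_⟩
  have hX1 : 1 ≤ X := hX₀.trans hX
  rw [intervalIntegral.integral_of_le hX1, intervalIntegral.integral_of_le (le_pow hX1 hK),
    zeroSum_eq]
  exact h q X T σ hqX hX hσ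

/-- The test of the generalized Riemann hypothesis in finite windows. -/
theorem grh_test : ∃ K : ℝ → ℕ, ∀ θ : ℝ, 1 / 2 ≤ θ →
    ((∀ (q : ℕ) [NeZero q] (χ : DirichletCharacter ℂ q) (ρ : ℂ),
      χ.LFunction ρ = 0 → ρ.re < 1 → ρ.re ≤ θ) ↔
    ∀ ε : ℝ, 0 < ε → ∃ q₀ : ℕ, ∀ q : ℕ, q₀ ≤ q →
      ∫ x in (q : ℝ)..((q : ℝ) ^ K ε), V x q * x ^ (-1 - 2 * θ) ≤ (q : ℝ) ^ ε) :=
  Pool.Agent.TS.grh_test

/-- For one modulus: the variance and the density of the zeros. -/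
theorem density : ∀ ε : ℝ, 0 < ε → ∃ (K : ℕ) (X₀ : ℝ),
    ∀ (q : ℕ) [NeZero q] (X : ℝ), (q : ℝ) ≤ X → X₀ ≤ X →
      (∫ x in X..(X ^ K), V x q / x ^ 2 ≤ X ^ ε →
        ∀ σ T : ℝ, 1 / 2 ≤ σ → 1 ≤ T → T ≤ X →
          zeroCount q σ T ≤ (Nat.totient q : ℝ) * T ^ 2 * X ^ (1 - 2 * σ + 3 * ε)) ∧
      ((∀ σ T : ℝ, 1 / 2 ≤ σ → 1 ≤ T → T ≤ X →
          zeroCount q σ T ≤ (Nat.totient q : ℝ) * T ^ 2 * X ^ (1 - 2 * σ + ε)) →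
        ∫ x in (1 : ℝ)..X, V x q / x ^ 2 ≤ X ^ (4 * ε)) := by
  intro ε hε
  obtain ⟨K, X₁, hK, hX₁, h₁⟩ := Pool.Agent.TS.density_of_variance ε hε
  obtain ⟨X₂, hX₂, h₂⟩ := Pool.Agent.TS.variance_of_density ε hε
  refine ⟨K, max X₁ X₂, fun q _ X hqX hX => ⟨fun hV σ T hσ hT1 hTX => ?_, fun hD => ?_⟩⟩
  · rw [zeroCount_eq]
    exact h₁ q X hqX ((le_max_left _ _).trans hX) hV σ T hσ hT1 hTX
  · refine h₂ q X hqX ((le_max_right _ _).trans hX) fun σ T hσ hT1 hTX => ?_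
    have := hD σ T hσ hT1 hTX
    rwa [zeroCount_eq] at this

/-- (1) The two-sided law, uniform in `q ≤ X`. (2) For each `θ ≥ 1/2` (the generalized Riemann
hypothesis is the case `θ = 1/2`): no `L(s, χ)` of any modulus has a zero `ρ` with
`θ < Re ρ < 1` if and only if for every `ε > 0` all large `q` satisfy the bound in the finite
window `[q, q^K]`, `K = K(ε)`. (3) For one modulus `q ≤ X`: the mean square bound for `V(x; q)` is,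
up to `ε` and the window, equivalent to a bound for the number of zeros. -/
theorem result :
    (∀ (A : ℕ) (ε : ℝ), 0 < ε → ∃ (K : ℕ) (X₀ : ℝ),
      ∀ (q : ℕ) [NeZero q] (X T σ : ℝ), (q : ℝ) ≤ X → X₀ ≤ X → 1 / 2 ≤ σ →
        (X ≤ T → ∫ x in (1 : ℝ)..X, V x q * x ^ (-1 - 2 * σ)
          ≤ X ^ ε * (1 + zeroSum q σ T X / (Nat.totient q : ℝ))) ∧
        (T ≤ X ^ A → zeroSum q σ T X / (Nat.totient q : ℝ)
          ≤ X ^ ε * ∫ x in X..(X ^ K), V x q * x ^ (-1 - 2 * σ))) ∧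
    (∃ K : ℝ → ℕ, ∀ θ : ℝ, 1 / 2 ≤ θ →
      ((∀ (q : ℕ) [NeZero q] (χ : DirichletCharacter ℂ q) (ρ : ℂ),
        χ.LFunction ρ = 0 → ρ.re < 1 → ρ.re ≤ θ) ↔
      ∀ ε : ℝ, 0 < ε → ∃ q₀ : ℕ, ∀ q : ℕ, q₀ ≤ q →
        ∫ x in (q : ℝ)..((q : ℝ) ^ K ε), V x q * x ^ (-1 - 2 * θ) ≤ (q : ℝ) ^ ε)) ∧
    (∀ ε : ℝ, 0 < ε → ∃ (K : ℕ) (X₀ : ℝ),
      ∀ (q : ℕ) [NeZero q] (X : ℝ), (q : ℝ) ≤ X → X₀ ≤ X →
        (∫ x in X..(X ^ K), V x q / x ^ 2 ≤ X ^ ε →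
          ∀ σ T : ℝ, 1 / 2 ≤ σ → 1 ≤ T → T ≤ X →
            zeroCount q σ T ≤ (Nat.totient q : ℝ) * T ^ 2 * X ^ (1 - 2 * σ + 3 * ε)) ∧
        ((∀ σ T : ℝ, 1 / 2 ≤ σ → 1 ≤ T → T ≤ X →
            zeroCount q σ T ≤ (Nat.totient q : ℝ) * T ^ 2 * X ^ (1 - 2 * σ + ε)) →
          ∫ x in (1 : ℝ)..X, V x q / x ^ 2 ≤ X ^ (4 * ε))) :=
  ⟨two_sided, grh_test, density⟩

/-- Consequence: the variance never drops. Every modulus `q ≤ X`. -/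
theorem never_drops : ∀ ε : ℝ, 0 < ε → ∃ (K : ℕ) (X₀ : ℝ),
    ∀ (q : ℕ) [NeZero q] (X σ : ℝ), (q : ℝ) ≤ X → X₀ ≤ X → 1 / 2 ≤ σ →
      ∫ x in (1 : ℝ)..X, V x q * x ^ (-1 - 2 * σ)
        ≤ X ^ ε * (1 + ∫ x in X..(X ^ K), V x q * x ^ (-1 - 2 * σ)) := by
  intro ε hε
  obtain ⟨K, X₀, hK, hX₀, h⟩ := Pool.Agent.TS.never_drops ε hε
  refine ⟨K, X₀, fun q _ X σ hqX hX hσ => ?_⟩
  have hX1 : 1 ≤ X := hX₀.trans hX
  rw [intervalIntegral.integral_of_le hX1, intervalIntegral.integral_of_le (le_pow hX1 hK)]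
  exact h q X σ hqX hX hσ

/-- Consequence: for the moduli `N ≤ q ≤ X` (`N` absolute) the term `1` is not needed. -/
theorem never_drops_large : ∃ N : ℕ, ∀ ε : ℝ, 0 < ε → ∃ (K : ℕ) (X₀ : ℝ),
    ∀ (q : ℕ) [NeZero q] (X : ℝ), N ≤ q → (q : ℝ) ≤ X → X₀ ≤ X →
      ∫ x in (1 : ℝ)..X, V x q / x ^ 2 ≤ X ^ ε * ∫ x in X..(X ^ K), V x q / x ^ 2 := by
  obtain ⟨N, hN⟩ := Pool.Agent.TS.never_drops_large
  refine ⟨N, fun ε hε => ?_⟩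
  obtain ⟨K, X₀, hK, hX₀, h⟩ := hN ε hε
  exact ⟨K, X₀, fun q _ X hNq hqX hX => h q X hNq hqX hX⟩

/-- Consequence for Montgomery's bound: if it holds for one modulus `q` and all `x` in one window
`[X, X^K]`, it holds in mean square at all earlier `x`. -/
theorem montgomery_down : ∀ C ε : ℝ, 0 < ε → ∃ (K : ℕ) (X₀ : ℝ),
    ∀ (q : ℕ) [NeZero q] (X : ℝ), (q : ℝ) ≤ X → X₀ ≤ X →
      (∀ x : ℝ, X ≤ x → x ≤ X ^ K → ∀ a : ℕ, 1 ≤ a → a ≤ q → Nat.Coprime a q →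
        |psi x q a - x / (Nat.totient q : ℝ)| ≤ C * x ^ (1 / 2 + ε) / (q : ℝ) ^ (1 / 2 : ℝ)) →
      ∀ x : ℝ, 1 ≤ x → x ≤ X → ∫ y in x..(2 * x), V y q / y ^ 2 ≤ X ^ (6 * ε) := by
  intro C ε hε
  obtain ⟨K, X₀, hK, hX₀, h⟩ := Pool.Agent.TS.montgomery_down C ε hε
  refine ⟨K, X₀, fun q _ X hqX hX hM x hx hxX => ?_⟩
  rw [intervalIntegral.integral_of_le (by linarith)]
  refine le_trans (le_of_eq ?_) (h q X hqX hX hM x hx hxX)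
  refine MeasureTheory.setIntegral_congr_fun measurableSet_Ioc fun y hy => ?_
  have hy0 : 0 < y := by linarith [hy.1]
  have e : y ^ (-2 : ℝ) = (y ^ 2)⁻¹ := by
    rw [Real.rpow_neg hy0.le]
    norm_num
  show V y q / y ^ 2 = V y q * y ^ (-2 : ℝ)
  rw [e, div_eq_mul_inv]

/-- Consequence for the zeros: under the same hypothesis, the number of zeros of all `L(s, χ)` mod
`q`, with multiplicity, with `σ ≤ Re ρ < 1` and `|Im ρ| ≤ T ≤ X`, is at most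
`φ(q) T² X^(1 - 2σ + 6ε)`. -/
theorem montgomery_zeros : ∀ C ε : ℝ, 0 < ε → ∃ (K : ℕ) (X₀ : ℝ),
    ∀ (q : ℕ) [NeZero q] (X σ T : ℝ), (q : ℝ) ≤ X → X₀ ≤ X → 1 / 2 ≤ σ → 1 ≤ T → T ≤ X →
      (∀ x : ℝ, X ≤ x → x ≤ X ^ K → ∀ a : ℕ, 1 ≤ a → a ≤ q → Nat.Coprime a q →
        |psi x q a - x / (Nat.totient q : ℝ)| ≤ C * x ^ (1 / 2 + ε) / (q : ℝ) ^ (1 / 2 : ℝ)) →
      ∑ χ : DirichletCharacter ℂ q, ∑ᶠ ρ ∈ zeros χ σ T, (analyticOrderNatAt χ.LFunction ρ : ℝ)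
        ≤ (Nat.totient q : ℝ) * T ^ 2 * X ^ (1 - 2 * σ + 6 * ε) := by
  intro C ε hε
  obtain ⟨K, X₀, hK, hX₀, h⟩ := Pool.Agent.TS.montgomery_zeros C ε hε
  refine ⟨K, X₀, fun q _ X σ T hqX hX hσ hT1 hTX hM => ?_⟩
  refine le_trans (le_of_eq ?_) (h q X σ T hqX hX hσ hT1 hTX hM)
  refine Finset.sum_congr rfl fun χ _ => ?_
  have h1 := finsum_eq χ σ T (fun _ => 1)
  simp only [mul_one] at h1
  exact h1

end Pool.Agent.Results.MP_9cfc0a_nt.TwoSided
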